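import Mathlib
import Pool.Agent.H28.Ekeland

set_option autoImplicit false

open Filter Topology Metric Set
open scoped unitInterval ContDiff

namespace Pool.Agent.Results.MP_a52dbe_an.NoBlid

/-- `S` admits `C^q` blid maps -/
def AdmitsBlid {X : Type} [NormedAddCommGroup X] [NormedSpace ℝ X] (q : ℕ∞) (S : Set X) : Prop :=
  ∀ U ∈ 𝓝ˢ S, ∃ H : X → X, ContDiff ℝ q H ∧ (∀ x, H x ∈ U) ∧
    ∃ V ∈ 𝓝ˢ S, V ⊆ U ∧ ∀ x ∈ V, H x = x

lemma rough (x : C(I, ℝ)) (δ : ℝ) (hδ : 0 < δ) :
    ∃ h : C(I, ℝ), ‖h‖ ≤ δ ∧ 2 * ‖x‖ + δ ≤ ‖x + h‖ + ‖x - h‖ := by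
  have ho : IsOpen {t : I | ‖x‖ - δ / 2 < |x t|} := isOpen_lt continuous_const (by fun_prop)
  have hne : {t : I | ‖x‖ - δ / 2 < |x t|}.Nonempty := by
    by_contra hc
    rw [not_nonempty_iff_eq_empty, eq_empty_iff_forall_notMem] at hc
    have h1 : ∀ t, ‖x t‖ ≤ ‖x‖ - δ / 2 := fun t => not_lt.1 (hc t)
    have := (ContinuousMap.norm_le x ((norm_nonneg _).trans (h1 0))).2 h1
    linarith
  obtain ⟨a, ha, b, hb, hab⟩ := (infinite_of_mem_nhds _ (ho.mem_nhds hne.some_mem)).nontrivial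
  obtain ⟨f, hf0, hf1, hf⟩ := exists_continuous_zero_one_of_isClosed (isClosed_singleton (x := a))
    (isClosed_singleton (x := b)) (disjoint_singleton.2 hab)
  have fa : f a = 0 := hf0 rfl
  have fb : f b = 1 := hf1 rfl
  let s : ℝ := if 0 ≤ x a then δ else -δ
  let s' : ℝ := if 0 ≤ x b then -δ else δ
  have hs : |s| = δ := by simp only [s]; split_ifs <;> simp [abs_of_pos hδ]
  have hs' : |s'| = δ := by simp only [s']; split_ifs <;> simp [abs_of_pos hδ]
  refine ⟨s • (1 - f) + s' • f, (ContinuousMap.norm_le _ hδ.le).2 fun t => ?_, ?_⟩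
  · have := hf t
    simp only [ContinuousMap.add_apply, ContinuousMap.smul_apply, ContinuousMap.sub_apply,
      ContinuousMap.one_apply, smul_eq_mul, Real.norm_eq_abs]
    refine (abs_add_le _ _).trans ?_
    rw [abs_mul, abs_mul, hs, hs', abs_of_nonneg this.1, abs_of_nonneg (sub_nonneg.2 this.2)]
    linarith
  · have h1 := (x + (s • (1 - f) + s' • f)).norm_coe_le_norm a
    have h2 := (x - (s • (1 - f) + s' • f)).norm_coe_le_norm b
    simp only [ContinuousMap.add_apply, ContinuousMap.smul_apply, ContinuousMap.sub_apply,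
      ContinuousMap.one_apply, smul_eq_mul, Real.norm_eq_abs, fa, fb] at h1 h2
    have e1 : |x a| + δ ≤ |x a + (s * (1 - 0) + s' * 0)| := by
      simp only [s]
      split_ifs with h
      · rw [abs_of_nonneg h]; exact le_trans (by linarith) (le_abs_self _)
      · rw [abs_of_neg (not_le.1 h)]; exact le_trans (by linarith) (neg_le_abs _)
    have e2 : |x b| + δ ≤ |x b - (s * (1 - 1) + s' * 1)| := by
      simp only [s']
      split_ifs with h
      · rw [abs_of_nonneg h]; exact le_trans (by linarith) (le_abs_self _)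
      · rw [abs_of_neg (not_le.1 h)]; exact le_trans (by linarith) (neg_le_abs _)
    simp only [mem_setOf_eq] at ha hb
    linarith

lemma nobump (g : C(I, ℝ) → ℝ) (hg : Differentiable ℝ g) (r : ℝ) (hr : 0 < r)
    (h0 : ∀ x, ‖x‖ = r → g x = 0) (x0 : C(I, ℝ)) (hx0 : ‖x0‖ ≤ r) : g x0 ≤ 0 := by
  by_contra hpos
  push Not at hpos
  set G : C(I, ℝ) → ℝ := fun x => Real.arctan (g x) with hG
  have hGd : Differentiable ℝ G := hg.arctan
  have G0 : 0 < G x0 := by
    have := Real.arctan_strictMono hpos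
    rwa [Real.arctan_zero] at this
  set c := G x0 / (2 * r) with hc
  have c0 : 0 < c := by positivity
  haveI : CompleteSpace (closedBall (0 : C(I, ℝ)) r) := isClosed_closedBall.completeSpace_coe
  obtain ⟨⟨x1, hx1⟩, h1, h2⟩ := Pool.Agent.H28.Ekeland.ekeland
    (X := closedBall (0 : C(I, ℝ)) r) (fun x => G x + c * ‖(x : C(I, ℝ))‖)
    ((hGd.continuous.comp continuous_subtype_val).add (by fun_prop)) (Real.pi / 2 + c * r)
    (fun x => add_le_add (Real.arctan_lt_pi_div_two _).le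
      (mul_le_mul_of_nonneg_left (mem_closedBall_zero_iff.1 x.2) c0.le))
    (c / 8) (by positivity) ⟨x0, mem_closedBall_zero_iff.2 hx0⟩
  have hlt : ‖x1‖ < r := by
    refine lt_of_le_of_ne (mem_closedBall_zero_iff.1 hx1) fun he => ?_
    have a : G x1 = 0 := by simp [hG, h0 x1 he]
    have b : c * r = G x0 / 2 := by rw [hc]; field_simp
    have d := mul_nonneg c0.le (norm_nonneg x0)
    have e := mul_nonneg (show 0 ≤ c / 8 by positivity)
      (dist_nonneg (x := (⟨x0, mem_closedBall_zero_iff.2 hx0⟩ : closedBall (0 : C(I, ℝ)) r))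
        (y := ⟨x1, hx1⟩))
    simp only [a, he] at h1
    linarith
  have hd := (hGd x1).hasFDerivAt
  rw [hasFDerivAt_iff_isLittleO_nhds_zero] at hd
  obtain ⟨δ, hδ, hb⟩ := Metric.eventually_nhds_iff.1 (hd.bound (show 0 < c / 8 by positivity))
  obtain ⟨h, hh, hrough⟩ := rough x1 (min (δ / 2) (r - ‖x1‖)) (by apply lt_min <;> linarith)
  set η := min (δ / 2) (r - ‖x1‖) with hη
  have η0 : 0 < η := by apply lt_min <;> linarith
  have η1 : η ≤ δ / 2 := min_le_left _ _
  have η2 : η ≤ r - ‖x1‖ := min_le_right _ _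
  have p1 := h2 ⟨x1 + h, mem_closedBall_zero_iff.2 (by linarith [norm_add_le x1 h])⟩
  have p2 := h2 ⟨x1 - h, mem_closedBall_zero_iff.2 (by linarith [norm_sub_le x1 h])⟩
  have q1 := hb (y := h) (by rw [dist_zero_right]; linarith)
  have q2 := hb (y := -h) (by rw [dist_zero_right, norm_neg]; linarith)
  simp only [Subtype.dist_eq, dist_self_add_right, dist_self_sub_right] at p1 p2
  simp only [map_neg, norm_neg, Real.norm_eq_abs, ← sub_eq_add_neg] at q1 q2
  have a1 := (abs_le.1 q1).1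
  have a2 := (abs_le.1 q2).1
  have a3 := mul_le_mul_of_nonneg_left hrough c0.le
  have a4 := mul_le_mul_of_nonneg_left hh c0.le
  have a5 := mul_pos c0 η0
  linarith

theorem rigid (r : ℝ) (hr : 0 < r) (H : C(I, ℝ) → C(I, ℝ)) (hH : Differentiable ℝ H)
    (h : ∀ x, ‖x‖ = r → H x = x) (x : C(I, ℝ)) (hx : ‖x‖ ≤ r) : H x = x := by
  ext t
  have hd : Differentiable ℝ (fun y => H y t - y t) :=
    ((ContinuousMap.evalCLM ℝ t).differentiable.comp hH).sub
      (ContinuousMap.evalCLM ℝ t).differentiable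
  have a := nobump _ hd r hr (fun y hy => by simp [h y hy]) x hx
  have b := nobump _ hd.neg r hr (fun y hy => by simp [h y hy]) x hx
  simp only [Pi.neg_apply] at b
  linarith

theorem result (r : ℝ) (hr : 0 < r) :
    (∀ H : C(I, ℝ) → C(I, ℝ), Differentiable ℝ H → (∀ x, ‖x‖ = r → H x = x) →
      ∀ x, ‖x‖ ≤ r → H x = x) ∧
    ∀ q : ℕ∞, 1 ≤ q → ¬ AdmitsBlid q {x : C(I, ℝ) | ‖x‖ = r} := by
  refine ⟨rigid r hr, fun q hq hA => ?_⟩
  obtain ⟨H, h1, h2, V, hV, -, h3⟩ := hA {0}ᶜ (isOpen_compl_singleton.mem_nhdsSet.2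
    (fun x hx h => by rw [mem_singleton_iff.1 h] at hx; simp at hx; linarith))
  refine h2 0 (rigid r hr H (h1.differentiable ?_)
    (fun x hx => h3 x (subset_of_mem_nhdsSet hV hx)) 0 (by simpa using hr.le))
  intro h
  have : q = 0 := by exact_mod_cast h
  simp [this] at hq

end Pool.Agent.Results.MP_a52dbe_an.NoBlid
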